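import Pool.Agent.Y599.OC.Height
import Pool.Agent.H237R2.CB.Alg

/-!
# The algorithm for list homomorphisms to odd cycles, and its correctness
-/

namespace Pool.Agent.Y599.OC

open Pool.Agent.H237R2.CB (Inst gr graph nbr mem_nbr gt par gt_map_range)

/-- There is a homomorphism to the cycle of length `q` respecting the lists. -/
def ListHom (q : ℕ) (I : Inst) : Prop :=
  ∃ c : gr I.1.length I.2 →g SimpleGraph.cycleGraph q, ∀ v, (c v).val ∈ I.1.get v

/-- A height that violates a constraint. -/
def bad (q : ℕ) (I : Inst) (s : List (ℕ × ℕ)) (u : ℕ) (b : Bool) : Bool :=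
  !(decide (gt s u b % 2 = par b)) || (!(decide (gt s u b % q ∈ I.1.getD u [])) ||
    (nbr I.2 u).any (fun w => decide (w < I.1.length) && (!(decide (w = u)) &&
      decide (gt s w (!b) + 1 < gt s u b))))

/-- Lower a height by one if it violates a constraint. -/
def upd (q : ℕ) (I : Inst) (s : List (ℕ × ℕ)) (u : ℕ) (b : Bool) : ℕ :=
  bif bad q I s u b then gt s u b - 1 else gt s u b

/-- One step of the algorithm. -/
def step (q : ℕ) (I : Inst) (s : List (ℕ × ℕ)) : List (ℕ × ℕ) :=
  (List.range I.1.length).map fun u => (upd q I s u false, upd q I s u true)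

/-- The starting height. -/
def top (q : ℕ) (I : Inst) : ℕ := (2 * q + 1) * I.1.length + 2 * q

/-- The starting state. -/
def init (q : ℕ) (I : Inst) : List (ℕ × ℕ) := (List.range I.1.length).map fun _ => (top q I, top q I)

/-- The number of steps. -/
def steps (q : ℕ) (I : Inst) : ℕ := I.1.length * (2 * top q I) + 1

/-- The algorithm. -/
def alg (q : ℕ) (I : Inst) : Bool :=
  (List.range I.1.length).all fun u =>
    !(bad q I ((step q I)^[steps q I] (init q I)) u false) && !(bad q I ((step q I)^[steps q I] (init q I)) u true)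

section Lemmas

variable {q : ℕ} {I : Inst} {s : List (ℕ × ℕ)} {u : ℕ} {b : Bool}

theorem gt_map_range (f : ℕ → ℕ × ℕ) {n : ℕ} (hu : u < n) :
    gt ((List.range n).map f) u b = bif b then (f u).2 else (f u).1 := by
  unfold gt
  have : ((List.range n).map f).getD u (0, 0) = f u := by
    rw [List.getD_eq_getElem?_getD, List.getElem?_map, List.getElem?_range hu]
    rfl
  rw [this]

theorem gt_step (hu : u < I.1.length) : gt (step q I s) u b = upd q I s u b := by
  unfold step
  rw [gt_map_range _ hu]
  cases b <;> rfl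

theorem gt_init (hu : u < I.1.length) : gt (init q I) u b = top q I := by
  unfold init
  rw [gt_map_range _ hu]
  cases b <;> rfl

theorem bad_eq_false : bad q I s u b = false ↔ gt s u b % 2 = par b ∧
    gt s u b % q ∈ I.1.getD u [] ∧ ∀ w, w < I.1.length → w ≠ u → ((u, w) ∈ I.2 ∨ (w, u) ∈ I.2) →
      gt s u b ≤ gt s w (!b) + 1 := by
  unfold bad
  rw [Bool.or_eq_false_iff, Bool.or_eq_false_iff, Bool.not_eq_false', Bool.not_eq_false',
    decide_eq_true_eq, decide_eq_true_eq, List.any_eq_false]
  refine and_congr Iff.rfl (and_congr Iff.rfl ⟨fun h w hw hwu he => ?_, fun h w hw => ?_⟩)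
  · have := h w (mem_nbr.2 he)
    simp only [Bool.and_eq_true, decide_eq_true_eq, Bool.not_eq_true', decide_eq_false_iff_not,
      not_and, not_lt] at this
    exact this hw hwu
  · simp only [Bool.and_eq_true, decide_eq_true_eq, Bool.not_eq_true', decide_eq_false_iff_not,
      not_and, not_lt]
    exact fun h1 h2 => h w h1 h2 (mem_nbr.1 hw)

end Lemmas

/-- A solution of the height constraints, for the two copies of each vertex. -/
structure Sol (q : ℕ) (I : Inst) (H : ℕ → Bool → ℕ) : Prop where
  parity : ∀ u < I.1.length, ∀ b, H u b % 2 = par b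
  list : ∀ u < I.1.length, ∀ b, H u b % q ∈ I.1.getD u []
  edge : ∀ u < I.1.length, ∀ w < I.1.length, w ≠ u → ((u, w) ∈ I.2 ∨ (w, u) ∈ I.2) → ∀ b,
    H u b ≤ H w (!b) + 1

theorem Sol.of_good {q : ℕ} {I : Inst} {s : List (ℕ × ℕ)} (h : ∀ u < I.1.length, ∀ b, bad q I s u b = false) :
    Sol q I (gt s) :=
  ⟨fun u hu b => (bad_eq_false.1 (h u hu b)).1, fun u hu b => (bad_eq_false.1 (h u hu b)).2.1,
    fun u hu w hw hwu he b => (bad_eq_false.1 (h u hu b)).2.2 w hw hwu he⟩

/-- Consecutive numbers are adjacent modulo `q`. -/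
theorem cyc_succ {q x y : ℕ} (hq : 3 ≤ q) (h : y = x + 1) :
    (SimpleGraph.cycleGraph q).Adj ⟨x % q, Nat.mod_lt _ (by omega)⟩
      ⟨y % q, Nat.mod_lt _ (by omega)⟩ := by
  rw [SimpleGraph.cycleGraph_adj']
  right
  rw [Fin.sub_def]
  simp only
  subst h
  have h1 : x % q < q := Nat.mod_lt _ (by omega)
  rw [Nat.add_mod x 1 q, Nat.mod_eq_of_lt (show 1 < q by omega)]
  rcases Nat.lt_or_ge (x % q + 1) q with h2 | h2
  · rw [Nat.mod_eq_of_lt h2, show q - x % q + (x % q + 1) = q + 1 by omega, Nat.add_mod_left,
      Nat.mod_eq_of_lt (by omega)]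
  · have h3 : x % q + 1 = q := by omega
    rw [h3, Nat.mod_self, show q - x % q + 0 = 1 by omega, Nat.mod_eq_of_lt (by omega)]

/-- A solution of the height constraints gives a list homomorphism, if the graph is bipartite. -/
theorem Sol.colorable {q : ℕ} (hq : 3 ≤ q) {I : Inst} {H : ℕ → Bool → ℕ} (hH : Sol q I H)
    (hb : (gr I.1.length I.2).Colorable 2) : ListHom q I := by
  obtain ⟨C⟩ := hb
  let P : Fin I.1.length → Bool := fun v => decide (C v = 1)
  have hP : ∀ u v, (gr I.1.length I.2).Adj u v → P v = !(P u) := by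
    intro u v huv
    have h := C.valid huv
    simp only [P]
    generalize C u = x at h
    generalize C v = y at h
    revert x y
    decide
  refine ⟨⟨fun v => ⟨H v.1 (P v) % q, Nat.mod_lt _ (by omega)⟩, ?_⟩, fun v => ?_⟩
  · intro u v huv
    have h1 := hP u v huv
    have hadj := huv
    obtain ⟨hne, he⟩ := hadj
    have hne' : u.1 ≠ v.1 := fun h => hne (Fin.ext h)
    have e1 := hH.edge u.1 u.2 v.1 v.2 hne'.symm he (P u)
    have e2 := hH.edge v.1 v.2 u.1 u.2 hne' he.symm (P v)
    have p1 := hH.parity u.1 u.2 (P u)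
    have p2 := hH.parity v.1 v.2 (P v)
    have e3 : H v.1 (P v) = H u.1 (P u) + 1 ∨ H u.1 (P u) = H v.1 (P v) + 1 := by
      rw [h1] at e2 p2 ⊢
      rw [Bool.not_not] at e2
      cases hPu : P u <;> rw [hPu] at e1 e2 p1 p2 <;> simp only [par, Bool.not_true,
        Bool.not_false, cond_true, cond_false] at e1 e2 p1 p2 ⊢ <;> omega
    rcases e3 with e3 | e3
    · exact cyc_succ hq e3
    · exact (cyc_succ hq e3).symm
  · have := hH.list v.1 v.2 (P v)
    simpa [List.getD_eq_getElem?_getD, List.getElem?_eq_getElem v.2] using this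

/-- A list homomorphism gives a bounded solution of the height constraints. -/
theorem exists_sol {q : ℕ} (hq : 3 ≤ q) (hodd : Odd q) {I : Inst}
    (hb : (gr I.1.length I.2).Colorable 2) (hG : Spanned q (gr I.1.length I.2))
    (hI : ListHom q I) :
    ∃ H, Sol q I H ∧ ∀ u < I.1.length, ∀ b, H u b ≤ top q I := by
  obtain ⟨c, hl⟩ := hI
  obtain ⟨h, h1, h2, h3⟩ := exists_height hq hodd hb hG c
  rw [Fintype.card_fin] at h3
  have hqn : I.1.length ≤ 2 * q * I.1.length := Nat.le_mul_of_pos_left _ (by omega)
  have hqz : (I.1.length : ℤ) ≤ 2 * q * I.1.length := by exact_mod_cast hqn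
  -- the shifted heights
  let m : ℕ → ℕ := fun u => if hu : u < I.1.length then (h ⟨u, hu⟩ + 2 * q * I.1.length).toNat
    else 0
  have hm : ∀ u (hu : u < I.1.length), (m u : ℤ) = h ⟨u, hu⟩ + 2 * q * I.1.length := by
    intro u hu
    simp only [m, hu, dif_pos]
    rw [Int.toNat_of_nonneg]
    have := (h3 ⟨u, hu⟩).1
    linarith
  have hm3 : ∀ u (hu : u < I.1.length), m u % q = (c ⟨u, hu⟩).1 := by
    intro u hu
    have e1 := h1 ⟨u, hu⟩
    have e2 : ((m u : ℕ) : ZMod q) = (((c ⟨u, hu⟩).val : ℕ) : ZMod q) := by
      have : ((m u : ℤ) : ZMod q) = ((h ⟨u, hu⟩ + 2 * q * I.1.length : ℤ) : ZMod q) := by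
        rw [hm u hu]
      push_cast at this
      rw [this, e1, ZMod.natCast_self]
      ring
    have e3 := (ZMod.natCast_eq_natCast_iff' _ _ q).1 e2
    rw [e3, Nat.mod_eq_of_lt (c ⟨u, hu⟩).2]
  have hq2 : q % 2 = 1 := Nat.odd_iff.1 hodd
  refine ⟨fun u b => if m u % 2 = par b then m u else m u + q, ⟨?_, ?_, ?_⟩, ?_⟩
  · intro u hu b
    have hpar : par b = 0 ∨ par b = 1 := by cases b <;> simp [par]
    split_ifs with hh
    · exact hh
    · omega
  · intro u hu b
    have e : (if m u % 2 = par b then m u else m u + q) % q = m u % q := by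
      split_ifs
      · rfl
      · exact Nat.add_mod_right _ _
    rw [e, hm3 u hu]
    have := hl ⟨u, hu⟩
    simpa [List.getD_eq_getElem?_getD, List.getElem?_eq_getElem hu] using this
  · intro u hu w hw hwu he b
    have hadj : (gr I.1.length I.2).Adj ⟨u, hu⟩ ⟨w, hw⟩ :=
      ⟨fun h => hwu (by simpa using h.symm), he⟩
    have e1 := h2 _ _ hadj
    have e2 := hm u hu
    have e3 := hm w hw
    have e4 : m w = m u + 1 ∨ m u = m w + 1 := by
      rcases e1 with e1 | e1
      · left
        have : (m w : ℤ) = m u + 1 := by rw [e2, e3, e1]; ring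
        exact_mod_cast this
      · right
        have : (m u : ℤ) = m w + 1 := by rw [e2, e3, e1]; ring
        exact_mod_cast this
    have key : ∀ x y : ℕ, (x = 0 ∧ y = 1 ∨ x = 1 ∧ y = 0) →
        (if m u % 2 = x then m u else m u + q) ≤ (if m w % 2 = y then m w else m w + q) + 1 := by
      intro x y hxy
      split_ifs <;> omega
    cases b
    · exact key 0 1 (Or.inl ⟨rfl, rfl⟩)
    · exact key 1 0 (Or.inr ⟨rfl, rfl⟩)
  · intro u hu b
    have e1 := hm u hu
    have e2 := (h3 ⟨u, hu⟩).2
    have e5 : (m u : ℤ) ≤ (2 * q + 1) * I.1.length + q := by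
      rw [e1]
      linarith
    have : m u ≤ (2 * q + 1) * I.1.length + q := by exact_mod_cast e5
    simp only [top]
    split_ifs <;> omega

/-- The invariant of the algorithm: the state stays above every bounded solution. -/
theorem above {q : ℕ} {I : Inst} {H : ℕ → Bool → ℕ} (hH : Sol q I H)
    (hb : ∀ u < I.1.length, ∀ b, H u b ≤ top q I) (k : ℕ) :
    ∀ u < I.1.length, ∀ b, H u b ≤ gt ((step q I)^[k] (init q I)) u b := by
  induction k with
  | zero =>
    intro u hu b
    rw [Function.iterate_zero, id, gt_init hu]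
    exact hb u hu b
  | succ k ih =>
    intro u hu b
    rw [Function.iterate_succ_apply', gt_step hu]
    set s := (step q I)^[k] (init q I)
    unfold upd
    cases hbad : bad q I s u b with
    | false => simpa using ih u hu b
    | true =>
      rw [cond_true]
      have h1 := ih u hu b
      by_contra hcon
      have heq : gt s u b = H u b := by omega
      have : bad q I s u b = false := by
        rw [bad_eq_false, heq]
        refine ⟨hH.parity u hu b, hH.list u hu b, fun w hw hwu he => ?_⟩
        exact (hH.edge u hu w hw hwu he b).trans (Nat.succ_le_succ (ih w hw (!b)))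
      rw [this] at hbad
      exact Bool.false_ne_true hbad

/-- The sum of all heights of a state. -/
def tot (I : Inst) (s : List (ℕ × ℕ)) : ℕ :=
  ∑ u ∈ Finset.range I.1.length, (gt s u false + gt s u true)

theorem upd_le (q : ℕ) (I : Inst) (s : List (ℕ × ℕ)) (u : ℕ) (b : Bool) : upd q I s u b ≤ gt s u b := by
  unfold upd
  cases bad q I s u b
  · exact le_rfl
  · exact Nat.sub_le _ _

theorem tot_step {q : ℕ} {I : Inst} {s : List (ℕ × ℕ)} {u : ℕ} (hu : u < I.1.length) {b : Bool}
    (h : bad q I s u b = true) (hpos : 0 < gt s u b) : tot I (step q I s) + 1 ≤ tot I s := by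
  unfold tot
  have h1 : ∑ x ∈ Finset.range I.1.length, (gt (step q I s) x false + gt (step q I s) x true) <
      ∑ x ∈ Finset.range I.1.length, (gt s x false + gt s x true) := by
    refine Finset.sum_lt_sum (fun x hx => ?_) ⟨u, Finset.mem_range.2 hu, ?_⟩
    · rw [Finset.mem_range] at hx
      rw [gt_step hx, gt_step hx]
      exact Nat.add_le_add (upd_le _ _ _ _ _) (upd_le _ _ _ _ _)
    · rw [gt_step hu, gt_step hu]
      have hb : upd q I s u b < gt s u b := by
        unfold upd
        rw [h, cond_true]
        omega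
      cases b
      · exact Nat.add_lt_add_of_lt_of_le hb (upd_le _ _ _ _ _)
      · exact Nat.add_lt_add_of_le_of_lt (upd_le _ _ _ _ _) hb
  exact h1

theorem tot_init (q : ℕ) (I : Inst) : tot I (init q I) = I.1.length * (2 * top q I) := by
  unfold tot
  rw [Finset.sum_congr rfl (g := fun _ => 2 * top q I)]
  · simp
  · intro u hu
    rw [Finset.mem_range] at hu
    rw [gt_init hu, gt_init hu]
    ring

/-- If all heights are good, the state does not change any more. -/
theorem good_step {q : ℕ} {I : Inst} {s : List (ℕ × ℕ)} (h : ∀ u < I.1.length, ∀ b, bad q I s u b = false) :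
    ∀ u < I.1.length, ∀ b, bad q I (step q I s) u b = false := by
  have h1 : ∀ u < I.1.length, ∀ b, gt (step q I s) u b = gt s u b := by
    intro u hu b
    rw [gt_step hu]
    unfold upd
    rw [h u hu b]
    rfl
  intro u hu b
  have h2 := bad_eq_false.1 (h u hu b)
  rw [bad_eq_false, h1 u hu b]
  refine ⟨h2.1, h2.2.1, fun w hw hwu he => ?_⟩
  rw [h1 w hw]
  exact h2.2.2 w hw hwu he

theorem final_good {q : ℕ} {I : Inst} {H : ℕ → Bool → ℕ} (hH : Sol q I H)
    (hb : ∀ u < I.1.length, ∀ b, H u b ≤ top q I) :
    ∀ u < I.1.length, ∀ b, bad q I ((step q I)^[steps q I] (init q I)) u b = false := by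
  have key : ∀ k : ℕ, (∀ u < I.1.length, ∀ b, bad q I ((step q I)^[k] (init q I)) u b = false) ∨
      tot I ((step q I)^[k] (init q I)) + k ≤ tot I (init q I) := by
    intro k
    induction k with
    | zero => right; simp
    | succ k ih =>
      rw [Function.iterate_succ_apply']
      set s := (step q I)^[k] (init q I) with hs
      by_cases hgood : ∀ u < I.1.length, ∀ b, bad q I s u b = false
      · exact Or.inl (good_step hgood)
      · right
        rcases ih with ih | ih
        · exact absurd ih hgood
        push Not at hgood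
        obtain ⟨u, hu, b, hbad⟩ := hgood
        have hbad' : bad q I s u b = true := by simpa using hbad
        have h1 := above hH hb k u hu b
        have hpos : 0 < gt s u b := by
          by_contra hcon
          have h0 : gt s u b = 0 := by omega
          have hH0 : H u b = 0 := by rw [← hs, h0] at h1; omega
          apply hbad
          rw [bad_eq_false, h0, ← hH0]
          refine ⟨hH.parity u hu b, hH.list u hu b, fun w hw hwu he => ?_⟩
          rw [hH0]
          exact Nat.zero_le _
        have h2 := tot_step hu hbad' hpos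
        omega
  rcases key (steps q I) with h | h
  · exact h
  · rw [tot_init] at h
    unfold steps at h
    omega

/-- Correctness of the algorithm. -/
theorem alg_correct {q : ℕ} (hq : 3 ≤ q) (hodd : Odd q) {I : Inst}
    (hb : (gr I.1.length I.2).Colorable 2) (hG : Spanned q (gr I.1.length I.2)) :
    alg q I = true ↔ ListHom q I := by
  unfold alg
  rw [List.all_eq_true]
  constructor
  · intro h
    refine (Sol.of_good (q := q) (s := (step q I)^[steps q I] (init q I))
      fun u hu b => ?_).colorable hq hb
    have := h u (List.mem_range.2 hu)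
    simp only [Bool.and_eq_true, Bool.not_eq_true'] at this
    cases b
    · exact this.1
    · exact this.2
  · intro h u hu
    obtain ⟨H, hH, hB⟩ := exists_sol hq hodd hb hG h
    have := final_good hH hB u (List.mem_range.1 hu)
    simp only [Bool.and_eq_true, Bool.not_eq_true']
    exact ⟨this false, this true⟩

end Pool.Agent.Y599.OC
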