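import Pool.Agent.Y599.OC.Lift

/-!
# Height functions of homomorphisms to odd cycles
-/

namespace Pool.Agent.Y599.OC

open Pool.Agent.H237R2.CB

variable {V : Type*} {G : SimpleGraph V}

/-- Adjacent vertices of a cycle differ by one modulo its length. -/
theorem cyc_adj {q : ℕ} (hq : 3 ≤ q) {a b : Fin q} (h : (SimpleGraph.cycleGraph q).Adj a b) :
    ((b.val : ℕ) : ZMod q) = (a.val : ℕ) + 1 ∨ ((a.val : ℕ) : ZMod q) = (b.val : ℕ) + 1 := by
  have key : ∀ x y : Fin q, (x - y).val = 1 → ((x.val : ℕ) : ZMod q) = (y.val : ℕ) + 1 := by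
    intro x y hxy
    have h1 : (((x - y).val : ℕ) : ZMod q) = 1 := by rw [hxy]; simp
    rw [Fin.sub_def] at h1
    simp only [ZMod.natCast_mod] at h1
    rw [Nat.cast_add, Nat.cast_sub y.2.le, ZMod.natCast_self] at h1
    linear_combination h1
  rw [SimpleGraph.cycleGraph_adj'] at h
  rcases h with h | h
  · exact Or.inr (key _ _ h)
  · exact Or.inl (key _ _ h)

section

variable {q : ℕ} (c : G →g SimpleGraph.cycleGraph q)

/-- The residues. -/
def cz (v : V) : ZMod q := ((c v).val : ℕ)

/-- The weight of a homomorphism. -/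
noncomputable def th (u v : V) : ℤ := by
  classical exact if G.Adj u v then (if cz c v = cz c u + 1 then 1 else -1) else 0

variable {c}

theorem two_ne (hq : 3 ≤ q) : (2 : ZMod q) ≠ 0 := by
  intro h
  have : ((2 : ℕ) : ZMod q) = 0 := by exact_mod_cast h
  rw [ZMod.natCast_eq_zero_iff] at this
  have := Nat.le_of_dvd (by norm_num) this
  omega

theorem th_adj (hq : 3 ≤ q) {u v : V} (h : G.Adj u v) :
    (cz c v = cz c u + 1 ∧ th c u v = 1) ∨ (cz c u = cz c v + 1 ∧ th c u v = -1) := by
  unfold th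
  rw [if_pos h]
  rcases cyc_adj hq (c.map_adj h) with h1 | h1
  · have h2 : cz c v = cz c u + 1 := h1
    exact Or.inl ⟨h2, by rw [if_pos h2]⟩
  · have h2 : cz c u = cz c v + 1 := h1
    refine Or.inr ⟨h2, if_neg fun h3 => two_ne hq ?_⟩
    linear_combination -h2 - h3

theorem th_antisymm (hq : 3 ≤ q) (u v : V) : th c u v = - th c v u := by
  by_cases h : G.Adj u v
  · rcases th_adj (c := c) hq h with ⟨h1, h2⟩ | ⟨h1, h2⟩ <;>
      rcases th_adj (c := c) hq h.symm with ⟨h3, h4⟩ | ⟨h3, h4⟩
    · exact absurd (by linear_combination -h1 - h3 : (2 : ZMod q) = 0) (two_ne hq)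
    · rw [h2, h4]; norm_num
    · rw [h2, h4]
    · exact absurd (by linear_combination -h1 - h3 : (2 : ZMod q) = 0) (two_ne hq)
  · unfold th
    rw [if_neg h, if_neg (fun h' => h h'.symm)]
    simp

theorem th_abs (u v : V) : |th c u v| ≤ 1 := by
  unfold th
  split_ifs <;> simp

theorem tw_cast (hq : 3 ≤ q) : ∀ {u v : V} (p : G.Walk u v),
    ((tw (th c) p : ℤ) : ZMod q) = cz c v - cz c u
  | _, _, .nil => by simp [tw]
  | u, _, .cons (v := w) h p => by
    simp only [tw]
    rw [Int.cast_add, tw_cast hq p]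
    rcases th_adj (c := c) hq h with ⟨h1, h2⟩ | ⟨h1, h2⟩
    · rw [h2]; push_cast; linear_combination -h1
    · rw [h2]; push_cast; linear_combination h1

theorem tw_parity (hq : 3 ≤ q) : ∀ {u v : V} (p : G.Walk u v),
    Even (tw (th c) p - p.length)
  | _, _, .nil => by simp [tw]
  | u, _, .cons (v := w) h p => by
    simp only [tw, SimpleGraph.Walk.length_cons]
    obtain ⟨r, hr⟩ := tw_parity hq p
    push_cast
    rcases th_adj (c := c) hq h with ⟨_, h2⟩ | ⟨_, h2⟩
    · exact ⟨r, by rw [h2]; linarith⟩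
    · exact ⟨r - 1, by rw [h2]; linarith⟩

theorem tw_short (hq : 3 ≤ q) (hodd : Odd q) (hb : G.Colorable 2) {u : V} (p : G.Walk u u)
    (hp : p.length < 2 * q) : tw (th c) p = 0 := by
  have h1 : ((tw (th c) p : ℤ) : ZMod q) = 0 := by rw [tw_cast hq p, sub_self]
  rw [ZMod.intCast_zmod_eq_zero_iff_dvd] at h1
  have h2 := SimpleGraph.two_colorable_iff_forall_loop_even.1 hb u p
  have h3 := tw_parity (c := c) hq p
  have h4 : (2 : ℤ) ∣ tw (th c) p := by
    obtain ⟨a, ha⟩ := h2
    obtain ⟨b, hb'⟩ := h3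
    exact ⟨a + b, by have : (p.length : ℤ) = a + a := by exact_mod_cast ha
                     linarith⟩
  have h5 : IsCoprime (2 : ℤ) (q : ℤ) := by
    obtain ⟨a, ha⟩ := hodd
    exact ⟨-a, 1, by rw [ha]; push_cast; ring⟩
  have h6 := h5.mul_dvd h4 h1
  refine Int.eq_zero_of_abs_lt_dvd h6 ?_
  have h7 := tw_abs (θ := th c) th_abs p
  have h8 : (p.length : ℤ) < 2 * q := by exact_mod_cast hp
  linarith

theorem tw_closed (hq : 3 ≤ q) (hodd : Odd q) (hb : G.Colorable 2) (hG : Spanned q G) {u : V}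
    (p : G.Walk u u) : tw (th c) p = 0 := by
  rw [tw_eq_darts]
  exact hG (th c) (th_antisymm hq) (fun u p hp => by
    rw [← tw_eq_darts]; exact tw_short hq hodd hb p hp) u p

theorem tw_unique (hq : 3 ≤ q) (hodd : Odd q) (hb : G.Colorable 2) (hG : Spanned q G) {u v : V}
    (p p' : G.Walk u v) : tw (th c) p = tw (th c) p' := by
  have h := tw_closed (c := c) hq hodd hb hG (p.append p'.reverse)
  rw [tw_append, tw_reverse (th_antisymm hq)] at h
  omega

theorem exists_height [Fintype V] (hq : 3 ≤ q) (hodd : Odd q) (hb : G.Colorable 2)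
    (hG : Spanned q G) (c : G →g SimpleGraph.cycleGraph q) :
    ∃ h : V → ℤ, (∀ v, ((h v : ℤ) : ZMod q) = ((c v).val : ℕ)) ∧
      (∀ u v, G.Adj u v → h v = h u + 1 ∨ h v = h u - 1) ∧
      ∀ v, -(Fintype.card V : ℤ) ≤ h v ∧ h v ≤ Fintype.card V + q := by
  classical
  have hr : ∀ v, G.Reachable (Quot.out (G.connectedComponentMk v)) v := fun v =>
    SimpleGraph.ConnectedComponent.exact (Quot.out_eq (G.connectedComponentMk v))
  choose p hp using fun v => (hr v).exists_isPath
  refine ⟨fun v => ((c (Quot.out (G.connectedComponentMk v))).val : ℤ) + tw (th c) (p v),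
    ?_, ?_, ?_⟩
  · intro v
    push_cast
    rw [tw_cast hq (p v)]
    unfold cz
    ring
  · intro u v huv
    have e : G.connectedComponentMk u = G.connectedComponentMk v :=
      SimpleGraph.ConnectedComponent.sound huv.reachable
    have key : ∀ (a : V) (w : G.Walk a v), a = Quot.out (G.connectedComponentMk v) →
        tw (th c) w = tw (th c) (p v) := by
      rintro a w rfl
      exact tw_unique hq hodd hb hG _ _
    have h1 := key _ ((p u).append (SimpleGraph.Walk.cons huv SimpleGraph.Walk.nil)) (by rw [e])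
    rw [tw_append] at h1
    simp only [tw, add_zero] at h1
    have h3 : ((c (Quot.out (G.connectedComponentMk u))).val : ℤ) =
        ((c (Quot.out (G.connectedComponentMk v))).val : ℤ) := by rw [e]
    simp only
    rw [← h1, h3]
    rcases th_adj (c := c) hq huv with ⟨_, h2⟩ | ⟨_, h2⟩ <;> rw [h2]
    · left; ring
    · right; ring
  · intro v
    have h1 := tw_abs (θ := th c) th_abs (p v)
    have h2 := (hp v).length_lt
    have h3 := (c (Quot.out (G.connectedComponentMk v))).2
    rw [abs_le] at h1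
    have h4 : ((p v).length : ℤ) ≤ (Fintype.card V : ℤ) := by exact_mod_cast h2.le
    have h5 : ((c (Quot.out (G.connectedComponentMk v))).val : ℤ) ≤ q := by exact_mod_cast h3.le
    have h6 : (0:ℤ) ≤ ((c (Quot.out (G.connectedComponentMk v))).val : ℤ) := by positivity
    simp only
    constructor
    · linarith [h1.1]
    · linarith [h1.2]

end

end Pool.Agent.Y599.OC
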