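import Pool.Agent.H237R2.CB.Height

/-!
# Homomorphisms to odd cycles and antisymmetric weights
-/

namespace Pool.Agent.Y599.OC

open Pool.Agent.H237R2.CB

variable {V : Type*} {G : SimpleGraph V}

/-- The sum of an antisymmetric weight along a walk. -/
def tw (θ : V → V → ℤ) : ∀ {u v : V}, G.Walk u v → ℤ
  | _, _, .nil => 0
  | u, _, .cons (v := w) _ p => θ u w + tw θ p

theorem tw_eq_darts (θ : V → V → ℤ) : ∀ {u v : V} (p : G.Walk u v),
    tw θ p = (p.darts.map fun d => θ d.fst d.snd).sum
  | _, _, .nil => by simp [tw]
  | _, _, .cons h p => by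
    simp only [tw, SimpleGraph.Walk.darts_cons, List.map_cons, List.sum_cons]
    rw [tw_eq_darts θ p]

theorem tw_append (θ : V → V → ℤ) : ∀ {u v w : V} (p : G.Walk u v) (q : G.Walk v w),
    tw θ (p.append q) = tw θ p + tw θ q
  | _, _, _, .nil, q => by simp [tw]
  | _, _, _, .cons h p, q => by
    rw [SimpleGraph.Walk.cons_append]
    simp only [tw]
    rw [tw_append θ p q, add_assoc]

theorem tw_reverse {θ : V → V → ℤ} (hθ : ∀ u v, θ u v = - θ v u) :
    ∀ {u v : V} (p : G.Walk u v), tw θ p.reverse = - tw θ p
  | _, _, .nil => by simp [tw]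
  | _, _, .cons (u := a) (v := b) h p => by
    rw [SimpleGraph.Walk.reverse_cons, tw_append, tw_reverse hθ p]
    simp only [tw]
    rw [hθ b a]
    ring

/-- The sum along a sequence. -/
def ts (θ : V → V → ℤ) (f : ℕ → V) (n : ℕ) : ℤ := ∑ i ∈ Finset.range n, θ (f i) (f (i + 1))

theorem tw_eq_ts (θ : V → V → ℤ) : ∀ {u v : V} (p : G.Walk u v), tw θ p = ts θ p.getVert p.length
  | _, _, .nil => by simp [tw, ts]
  | u, _, .cons h p => by
    simp only [tw]
    rw [tw_eq_ts θ p]
    unfold ts
    rw [SimpleGraph.Walk.length_cons, Finset.sum_range_succ']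
    simp only [SimpleGraph.Walk.getVert_cons_succ, SimpleGraph.Walk.getVert_zero, zero_add]
    ring

theorem tw_abs {θ : V → V → ℤ} (h1 : ∀ u v, |θ u v| ≤ 1) : ∀ {u v : V} (p : G.Walk u v),
    |tw θ p| ≤ p.length
  | _, _, .nil => by simp [tw]
  | u, _, .cons (v := w) h p => by
    simp only [tw, SimpleGraph.Walk.length_cons]
    have h2 := tw_abs h1 p
    have h3 := h1 u w
    rw [abs_le] at h2 h3 ⊢
    push_cast
    constructor <;> linarith [h2.1, h2.2, h3.1, h3.2]

theorem ts_split (θ : V → V → ℤ) (f : ℕ → V) (a b d : ℕ) :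
    ts θ f (a + b + d) = ts θ f a + ts θ (fun k => f (a + k)) b + ts θ (fun k => f (a + b + k)) d := by
  unfold ts
  rw [Finset.sum_range_add, Finset.sum_range_add]
  simp only [add_assoc]

theorem ts_congr (θ : V → V → ℤ) {f g : ℕ → V} {n : ℕ} (h : ∀ i ≤ n, f i = g i) :
    ts θ f n = ts θ g n := by
  unfold ts
  refine Finset.sum_congr rfl fun i hi => ?_
  rw [Finset.mem_range] at hi
  rw [h i (by omega), h (i + 1) (by omega)]

theorem ts_closed (hG : NoLong G) {θ : V → V → ℤ} (hθ : ∀ u v, θ u v = - θ v u)
    (h4 : ∀ f : ℕ → V, Closed G f 4 → ts θ f 4 = 0) :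
    ∀ (n : ℕ) (f : ℕ → V), Closed G f n → ts θ f n = 0 := by
  intro n
  induction n using Nat.strong_induction_on with
  | _ n ih =>
  intro f hf
  by_cases h0 : n = 0
  · subst h0; simp [ts]
  by_cases hrep : ∃ i j, i < j ∧ j < n ∧ f i = f j
  · -- a repeated vertex
    obtain ⟨i, j, hij, hjn, hfij⟩ := hrep
    obtain ⟨b, rfl⟩ := Nat.exists_eq_add_of_lt hij
    obtain ⟨d, rfl⟩ := Nat.exists_eq_add_of_lt hjn
    have e : i + b + 1 + d + 1 = i + (b + 1) + (d + 1) := by ring
    rw [e] at hf ⊢
    rw [ts_split]
    have c1 : Closed G (fun k => f (i + k)) (b + 1) := by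
      refine ⟨fun k hk => ?_, ?_⟩
      · have := hf.1 (i + k) (by omega)
        simpa [add_assoc] using this
      · simpa [add_assoc] using hfij.symm
    have c2 : Closed G (fun k => if k ≤ i then f k else f (k + (b + 1))) (i + (d + 1)) := by
      refine ⟨fun k hk => ?_, ?_⟩
      · rcases lt_trichotomy k i with h | h | h
        · simp only [h.le, if_true, show k + 1 ≤ i by omega]
          exact hf.1 k (by omega)
        · subst h
          simp only [le_refl, if_true, show ¬ (k + 1 ≤ k) by omega, if_false]
          rw [hfij]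
          have := hf.1 (k + b + 1) (by omega)
          convert! this using 2
          ring
        · simp only [show ¬ (k ≤ i) by omega, show ¬ (k + 1 ≤ i) by omega, if_false]
          have := hf.1 (k + (b + 1)) (by omega)
          convert! this using 2
          ring
      · simp only [show ¬ (i + (d + 1) ≤ i) by omega, if_false, Nat.zero_le, if_true]
        rw [← hf.2]
        congr 1
        ring
    have s1 := ih (b + 1) (by omega) _ c1
    have s2 := ih (i + (d + 1)) (by omega) _ c2
    have s3 : ts θ (fun k => if k ≤ i then f k else f (k + (b + 1))) (i + (d + 1)) =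
        ts θ f i + ts θ (fun k => f (i + (b + 1) + k)) (d + 1) := by
      have := ts_split θ (fun k => if k ≤ i then f k else f (k + (b + 1))) i 0 (d + 1)
      rw [add_zero] at this
      rw [this]
      have e1 : ts θ (fun k => if k ≤ i then f k else f (k + (b + 1))) i = ts θ f i :=
        ts_congr θ fun k hk => by simp [hk]
      have e2 : ts θ (fun k => (fun k => if k ≤ i then f k else f (k + (b + 1))) (i + k)) 0 = 0 := by
        simp [ts]
      have e3 : ts θ (fun k => (fun k => if k ≤ i then f k else f (k + (b + 1))) (i + k)) (d + 1) =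
          ts θ (fun k => f (i + (b + 1) + k)) (d + 1) := by
        refine ts_congr θ fun k hk => ?_
        by_cases hk0 : k = 0
        · subst hk0
          simp only [add_zero, le_refl, if_true]
          rw [hfij]; congr 1
        · simp only [show ¬ (i + k ≤ i) by omega, if_false]
          congr 1; ring
      rw [e1, e2, e3, add_zero]
    rw [s1]
    rw [s3] at s2
    omega
  by_cases hch : ∃ i j, i + 2 ≤ j ∧ j < n ∧ j - i + 2 ≤ n ∧ G.Adj (f i) (f j)
  · -- a chord
    obtain ⟨i, j, hij, hjn, hijn, hadj⟩ := hch
    obtain ⟨b, rfl⟩ := Nat.exists_eq_add_of_le hij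
    obtain ⟨d, rfl⟩ := Nat.exists_eq_add_of_lt hjn
    have e : i + 2 + b + d + 1 = i + (b + 2) + (d + 1) := by ring
    rw [e] at hf ⊢
    rw [ts_split]
    have c1 : Closed G (fun k => if k ≤ b + 2 then f (i + k) else f i) (b + 3) := by
      refine ⟨fun k hk => ?_, ?_⟩
      · by_cases h : k = b + 2
        · subst h
          simp only [le_refl, if_true, show ¬ (b + 2 + 1 ≤ b + 2) by omega, if_false]
          have := hadj.symm
          convert! this using 2
          ring
        · simp only [show k ≤ b + 2 by omega, show k + 1 ≤ b + 2 by omega, if_true]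
          have := hf.1 (i + k) (by omega)
          simpa [add_assoc] using this
      · simp
    have c2 : Closed G (fun k => if k ≤ i then f k else f (k + (b + 1))) (i + (d + 2)) := by
      refine ⟨fun k hk => ?_, ?_⟩
      · rcases lt_trichotomy k i with h | h | h
        · simp only [h.le, if_true, show k + 1 ≤ i by omega]
          exact hf.1 k (by omega)
        · subst h
          simp only [le_refl, if_true, show ¬ (k + 1 ≤ k) by omega, if_false]
          convert! hadj using 2
          ring
        · simp only [show ¬ (k ≤ i) by omega, show ¬ (k + 1 ≤ i) by omega, if_false]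
          have := hf.1 (k + (b + 1)) (by omega)
          convert! this using 2
          ring
      · simp only [show ¬ (i + (d + 2) ≤ i) by omega, if_false, Nat.zero_le, if_true]
        rw [← hf.2]
        congr 1
        ring
    have s1 := ih (b + 3) (by omega) _ c1
    have s2 := ih (i + (d + 2)) (by omega) _ c2
    have s3 : ts θ (fun k => if k ≤ b + 2 then f (i + k) else f i) (b + 3) =
        ts θ (fun k => f (i + k)) (b + 2) + θ (f (i + (b + 2))) (f i) := by
      have h1 : ts θ (fun k => if k ≤ b + 2 then f (i + k) else f i) (b + 3) =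
          ts θ (fun k => if k ≤ b + 2 then f (i + k) else f i) (b + 2) +
            θ (f (i + (b + 2))) (f i) := by
        unfold ts
        rw [Finset.sum_range_succ]
        simp
      rw [h1]
      congr 1
      exact ts_congr θ fun k hk => by simp [hk]
    have s4 : ts θ (fun k => if k ≤ i then f k else f (k + (b + 1))) (i + (d + 2)) =
        ts θ f i + (θ (f i) (f (i + (b + 2))) +
          ts θ (fun k => f (i + (b + 2) + k)) (d + 1)) := by
      have h1 := ts_split θ (fun k => if k ≤ i then f k else f (k + (b + 1))) i 1 (d + 1)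
      have e0 : i + 1 + (d + 1) = i + (d + 2) := by ring
      rw [e0] at h1
      rw [h1]
      have e1 : ts θ (fun k => if k ≤ i then f k else f (k + (b + 1))) i = ts θ f i :=
        ts_congr θ fun k hk => by simp [hk]
      have e2 : ts θ (fun k => (fun k => if k ≤ i then f k else f (k + (b + 1))) (i + k)) 1 =
          θ (f i) (f (i + (b + 2))) := by
        simp only [ts, Finset.sum_range_one, add_zero, le_refl, if_true,
          show ¬ (i + (0 + 1) ≤ i) by omega, if_false]
        congr 2
        ring
      have e3 : ts θ (fun k => (fun k => if k ≤ i then f k else f (k + (b + 1))) (i + 1 + k)) (d + 1) =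
          ts θ (fun k => f (i + (b + 2) + k)) (d + 1) := by
        refine ts_congr θ fun k hk => ?_
        simp only [show ¬ (i + 1 + k ≤ i) by omega, if_false]
        congr 1; ring
      rw [e1, e2, e3, add_assoc]
    have s5 : θ (f i) (f (i + (b + 2))) = - θ (f (i + (b + 2))) (f i) := hθ _ _
    rw [s3] at s1
    rw [s4] at s2
    omega
  -- an induced cycle
  push Not at hrep hch
  have hinj : ∀ i j, i < n → j < n → f i = f j → i = j := by
    intro i j hi hj h
    rcases lt_trichotomy i j with h1 | h1 | h1
    · exact absurd h (hrep i j h1 hj)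
    · exact h1
    · exact absurd h.symm (hrep j i h1 hi)
  by_cases h1 : n = 1
  · subst h1
    have := hf.1 0 (by omega)
    rw [show f (0 + 1) = f 0 from hf.2] at this
    exact absurd this (G.loopless.irrefl _)
  by_cases h2 : n = 2
  · subst h2
    have e : f (1 + 1) = f 0 := hf.2
    simp only [ts, Finset.sum_range_succ, Finset.sum_range_zero]
    rw [e]
    have := hθ (f 0) (f (0 + 1))
    simp only [zero_add] at this ⊢
    omega
  have hn4 : n = 4 := by
    by_contra hn4
    have key : ∀ i j : ℕ, i < j → j < n → (G.Adj (f i) (f j) ↔ j = i + 1 ∨ (i = 0 ∧ j + 1 = n)) := by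
      intro i j hij hj
      constructor
      · intro hadj
        by_contra hcon
        push Not at hcon
        by_cases hji : j - i + 2 ≤ n
        · exact hch i j (by omega) hj hji hadj
        · have : i = 0 := by omega
          exact hcon.2 this (by omega)
      · rintro (rfl | ⟨rfl, h⟩)
        · exact hf.1 i (by omega)
        · have := hf.1 j hj
          rw [h, hf.2] at this
          exact this.symm
    obtain ⟨m, rfl⟩ : ∃ m, n = m + 2 := ⟨n - 2, by omega⟩
    refine (hG (m + 2) (by omega) hn4).false ?_
    refine ⟨⟨fun i => f i.1, fun i j h => Fin.ext (hinj _ _ i.2 j.2 h)⟩, ?_⟩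
    intro i j
    change G.Adj (f i.1) (f j.1) ↔ (SimpleGraph.cycleGraph (m + 2)).Adj i j
    rw [SimpleGraph.cycleGraph_adj']
    have hi := i.2
    have hj := j.2
    have hsub : ∀ a b : Fin (m + 2), a.1 < b.1 → ((a - b).val = 1 ↔ (a.1 = 0 ∧ b.1 + 1 = m + 2)) ∧
        ((b - a).val = 1 ↔ b.1 = a.1 + 1) := by
      intro a b hab
      have ha := a.2
      have hb := b.2
      constructor
      · rw [Fin.sub_def]
        simp only
        constructor
        · intro h
          rw [Nat.mod_eq_of_lt (by omega)] at h
          omega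
        · intro h
          rw [Nat.mod_eq_of_lt (by omega)]
          omega
      · rw [Fin.sub_def]
        simp only
        have : m + 2 - a.1 + b.1 = (m + 2) + (b.1 - a.1) := by omega
        rw [this, Nat.add_mod_left, Nat.mod_eq_of_lt (by omega)]
        omega
    rcases lt_trichotomy i.1 j.1 with h | h | h
    · rw [key _ _ h hj, (hsub i j h).1, (hsub i j h).2]
      tauto
    · have : i = j := Fin.ext h
      subst this
      simp
    · rw [G.adj_comm, key _ _ h hi, (hsub j i h).1, (hsub j i h).2]
  subst hn4
  exact h4 f hf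

/-- A sequence of four steps is a walk. -/
theorem four_walk {f : ℕ → V} (hf : Closed G f 4) (θ : V → V → ℤ) :
    ∃ p : G.Walk (f 0) (f 0), p.length = 4 ∧ tw θ p = ts θ f 4 := by
  have h0 := hf.1 0 (by omega)
  have h1 := hf.1 1 (by omega)
  have h2 := hf.1 2 (by omega)
  have h3 := hf.1 3 (by omega)
  rw [show f (3 + 1) = f 0 from hf.2] at h3
  refine ⟨.cons h0 (.cons h1 (.cons h2 (.cons h3 .nil))), rfl, ?_⟩
  simp only [tw, ts, Finset.sum_range_succ, Finset.sum_range_zero]
  rw [show f (3 + 1) = f 0 from hf.2]
  ring

/-- The cycle space of `G` is spanned by the closed walks of length less than `2 q`: every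
antisymmetric integral weight whose sum along each closed walk of length less than `2 q` is zero
has sum zero along each closed walk. -/
def Spanned (q : ℕ) (G : SimpleGraph V) : Prop :=
  ∀ θ : V → V → ℤ, (∀ u v, θ u v = - θ v u) →
    (∀ (u : V) (p : G.Walk u u), p.length < 2 * q → (p.darts.map fun d => θ d.fst d.snd).sum = 0) →
      ∀ (u : V) (p : G.Walk u u), (p.darts.map fun d => θ d.fst d.snd).sum = 0

theorem spanned_of_noLong {q : ℕ} (hq : 3 ≤ q) (hG : NoLong G) : Spanned q G := by
  intro θ hθ h u p
  rw [← tw_eq_darts, tw_eq_ts]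
  refine ts_closed hG hθ (fun f hf => ?_) _ _ ⟨fun i hi => p.adj_getVert_succ hi, ?_⟩
  · obtain ⟨w, hw, he⟩ := four_walk hf θ
    rw [← he, tw_eq_darts]
    exact h _ w (by omega)
  · rw [p.getVert_length, p.getVert_zero]

end Pool.Agent.Y599.OC
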