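import Pool.Agent.Y599.OC.PolyAlg

/-!
# List homomorphisms to odd cycles
-/

namespace Pool.Agent.Y599.OC

open Pool.Agent.NPC Pool.Agent.NPC.Y599OC
open Pool.Agent.H237R2.CB (Inst gr ChordalBipartite ListInstance PreInstance ListThreeColorable
  PrecoloringExtends)

/-- A partial map, given by the list of its values, extends to a homomorphism to the cycle of
length `q`. -/
def ExtHom (q : ℕ) (I : PreInstance) : Prop :=
  ∃ c : gr I.1.length I.2 →g SimpleGraph.cycleGraph q, ∀ v k, I.1.get v = some k → (c v).val = k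

theorem conv_iff {q : ℕ} (I : PreInstance) : ListHom q (conv q I) ↔ ExtHom q I := by
  have hlen : (conv q I).1.length = I.1.length := by simp [conv]
  have key : ∀ n : ℕ, n = I.1.length →
      ((∃ c : gr n I.2 →g SimpleGraph.cycleGraph q,
        ∀ v, (c v).val ∈ (conv q I).1.getD v.1 []) ↔ ExtHom q I) := by
    rintro n rfl
    refine exists_congr fun c => forall_congr' fun v => ?_
    have e : (conv q I).1.getD v.1 [] = optList q (I.1.get v) := by
      simp [conv, List.getD_eq_getElem?_getD]
    rw [e]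
    cases h : I.1.get v with
    | none =>
      have := (c v).2
      simp [optList]
    | some k => simp [optList]
  rw [← key _ hlen]
  refine exists_congr fun c => forall_congr' fun v => ?_
  simp [List.getD_eq_getElem?_getD]
  exact Iff.rfl

theorem list_main {q : ℕ} (hq : 3 ≤ q) (hodd : Odd q) :
    ∃ L : Set (List Bool), InP L ∧ ∀ I : ListInstance, (gr I.1.length I.2).Colorable 2 →
      Spanned q (gr I.1.length I.2) → (bits I ∈ L ↔ ListHom q I) := by
  refine ⟨lang (fun I : ListInstance => alg q I = true), inPP_of (poly_alg q) fun _ => Iff.rfl,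
      fun I hI hS => ?_⟩
  rw [bits_mem_lang]
  exact alg_correct hq hodd hI hS

theorem pre_main {q : ℕ} (hq : 3 ≤ q) (hodd : Odd q) :
    ∃ L : Set (List Bool), InP L ∧ ∀ I : PreInstance, (gr I.1.length I.2).Colorable 2 →
      Spanned q (gr I.1.length I.2) → (bits I ∈ L ↔ ExtHom q I) := by
  refine ⟨lang (fun I : PreInstance => alg q (conv q I) = true), inPP_of (poly_algConv q)
    fun _ => Iff.rfl, fun I hI hS => ?_⟩
  rw [bits_mem_lang, ← conv_iff]
  have hlen : (conv q I).1.length = I.1.length := by simp [conv]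
  have h : ∀ n : ℕ, n = I.1.length → (gr n I.2).Colorable 2 ∧ Spanned q (gr n I.2) := by
    rintro n rfl
    exact ⟨hI, hS⟩
  have hI' := h _ hlen
  exact alg_correct (I := conv q I) hq hodd hI'.1 hI'.2

theorem spanned_chordalBipartite {V : Type} {G : SimpleGraph V} (hG : ChordalBipartite G) {q : ℕ}
    (hq : 3 ≤ q) : G.Colorable 2 ∧ Spanned q G := ⟨hG.1, spanned_of_noLong hq hG.2⟩

theorem adj3 (a b : Fin 3) : (SimpleGraph.cycleGraph 3).Adj a b ↔ a ≠ b := by
  rw [SimpleGraph.cycleGraph_three_eq_top]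
  simp

theorem hom_three {n : ℕ} {G : SimpleGraph (Fin n)} {p : (Fin n → Fin 3) → Prop} :
    (∃ c : G →g SimpleGraph.cycleGraph 3, p c) ↔
      ∃ c : Fin n → Fin 3, (∀ u v, G.Adj u v → c u ≠ c v) ∧ p c := by
  constructor
  · rintro ⟨c, hc⟩
    exact ⟨c, fun u v huv => (adj3 _ _).1 (c.map_adj huv), hc⟩
  · rintro ⟨c, h1, h2⟩
    exact ⟨⟨c, fun {u v} huv => (adj3 _ _).2 (h1 u v huv)⟩, h2⟩

theorem listHom_three (I : ListInstance) : ListHom 3 I ↔ ListThreeColorable I :=
  hom_three (p := fun c => ∀ v, (c v).1 ∈ I.1.get v)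

theorem extHom_three (I : PreInstance) : ExtHom 3 I ↔ PrecoloringExtends I :=
  hom_three (p := fun c => ∀ v k, I.1.get v = some k → (c v).1 = k)

end Pool.Agent.Y599.OC
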