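import Pool.Agent.Y599.OC.Alg
import Pool.Agent.H237R2.CB.Main

/-!
# The algorithm runs in polynomial time
-/

namespace Pool.Agent.NPC.Y599OC

open Pool.Agent.H237R2.CB (Inst gr graph nbr mem_nbr gt par gt_map_range)
open Pool.Agent.Y599.OC
open Pool.Agent.NPC.H237CB (poly_nbr poly_gt poly_arg)

variable (q : ℕ)

theorem poly_bad : Poly (fun p : (Inst × List (ℕ × ℕ)) × ℕ × Bool =>
    bad q p.1.1 p.1.2 p.2.1 p.2.2) := by
  have hg : Poly (fun p : (Inst × List (ℕ × ℕ)) × ℕ × Bool => gt p.1.2 p.2.1 p.2.2) :=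
    poly_gt (Poly.snd (Poly.fst Poly.id)) (Poly.fst (Poly.snd Poly.id))
      (Poly.snd (Poly.snd Poly.id))
  unfold bad
  refine Poly.or (Poly.not (Poly.decide_eq (Poly.mod hg (Poly.const 2)) ?_))
    (Poly.or (Poly.not (Poly.decide_mem (Poly.mod hg (Poly.const q)) ?_)) ?_)
  · exact Poly.cond (Poly.snd (Poly.snd Poly.id)) (Poly.const 1) (Poly.const 0)
  · exact Poly.getD (Poly.fst (Poly.fst (Poly.fst Poly.id))) (Poly.fst (Poly.snd Poly.id))
      (Poly.const [])
  · refine Poly.any (p := fun (p : (Inst × List (ℕ × ℕ)) × ℕ × Bool) (w : ℕ) =>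
      decide (w < p.1.1.1.length) && (!(decide (w = p.2.1)) &&
      decide (gt p.1.2 w (!p.2.2) + 1 < gt p.1.2 p.2.1 p.2.2))) ?_ ?_
    · exact poly_nbr.comp (Poly.pair (Poly.snd (Poly.fst (Poly.fst Poly.id)))
        (Poly.fst (Poly.snd Poly.id)))
    · refine Poly.and (Poly.decide_lt (Poly.snd Poly.id)
        (Poly.length (Poly.fst (Poly.fst (Poly.fst (Poly.fst Poly.id))))))
        (Poly.and (Poly.not (Poly.decide_eq (Poly.snd Poly.id)
          (Poly.fst (Poly.snd (Poly.fst Poly.id))))) ?_)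
      exact Poly.decide_lt (Poly.succ (poly_gt (Poly.snd (Poly.fst (Poly.fst Poly.id)))
        (Poly.snd Poly.id) (Poly.not (Poly.snd (Poly.snd (Poly.fst Poly.id))))))
        (hg.comp (Poly.fst Poly.id))

theorem poly_upd : Poly (fun p : (Inst × List (ℕ × ℕ)) × ℕ × Bool =>
    upd q p.1.1 p.1.2 p.2.1 p.2.2) := by
  have hg : Poly (fun p : (Inst × List (ℕ × ℕ)) × ℕ × Bool => gt p.1.2 p.2.1 p.2.2) :=
    poly_gt (Poly.snd (Poly.fst Poly.id)) (Poly.fst (Poly.snd Poly.id))
      (Poly.snd (Poly.snd Poly.id))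
  exact Poly.cond (poly_bad q) (Poly.sub hg (Poly.const 1)) hg

theorem poly_updb (b : Bool) : Poly (fun p : (Inst × List (ℕ × ℕ)) × ℕ =>
    upd q p.1.1 p.1.2 p.2 b) :=
  Poly.comp (g := fun p : (Inst × List (ℕ × ℕ)) × ℕ × Bool => upd q p.1.1 p.1.2 p.2.1 p.2.2)
    (f := fun p : (Inst × List (ℕ × ℕ)) × ℕ =>
      ((p.1, (p.2, b)) : (Inst × List (ℕ × ℕ)) × ℕ × Bool)) (poly_upd q) (poly_arg b)

theorem poly_badb (b : Bool) : Poly (fun p : (Inst × List (ℕ × ℕ)) × ℕ =>
    bad q p.1.1 p.1.2 p.2 b) :=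
  Poly.comp (g := fun p : (Inst × List (ℕ × ℕ)) × ℕ × Bool => bad q p.1.1 p.1.2 p.2.1 p.2.2)
    (f := fun p : (Inst × List (ℕ × ℕ)) × ℕ =>
      ((p.1, (p.2, b)) : (Inst × List (ℕ × ℕ)) × ℕ × Bool)) (poly_bad q) (poly_arg b)

theorem poly_step : Poly (fun p : Inst × List (ℕ × ℕ) => step q p.1 p.2) := by
  unfold step
  exact Poly.map (l := fun p : Inst × List (ℕ × ℕ) => List.range p.1.1.length)
    (F := fun (p : Inst × List (ℕ × ℕ)) (u : ℕ) => (upd q p.1 p.2 u false, upd q p.1 p.2 u true))
    (Poly.range_length (Poly.fst (Poly.fst Poly.id)))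
    (Poly.pair (poly_updb q false) (poly_updb q true))

theorem upoly_top : UPoly (top q) :=
  UPoly.add (UPoly.mul (UPoly.const (2 * q + 1)) (UPoly.length (Poly.fst Poly.id)))
    (UPoly.const (2 * q))

theorem poly_init : Poly (init q) := by
  unfold init
  refine Poly.map (F := fun (I : Inst) (_ : ℕ) => (top q I, top q I)) (Poly.range_length
    (Poly.fst Poly.id)) ?_
  exact (Poly.pair (upoly_top q).toPoly (upoly_top q).toPoly).comp (Poly.fst Poly.id)

theorem upoly_steps : UPoly (steps q) :=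
  UPoly.add (UPoly.mul (UPoly.length (Poly.fst Poly.id)) (UPoly.mul (UPoly.const 2) (upoly_top q)))
    (UPoly.const 1)

theorem gt_iterate_le (I : Inst) (k : ℕ) : ∀ u < I.1.length, ∀ b,
    gt ((step q I)^[k] (init q I)) u b ≤ top q I := by
  induction k with
  | zero =>
    intro u hu b
    rw [Function.iterate_zero, id, gt_init hu]
  | succ k ih =>
    intro u hu b
    rw [Function.iterate_succ_apply', gt_step hu]
    exact (upd_le _ _ _ _ _).trans (ih u hu b)

theorem iterate_bounds (I : Inst) (k : ℕ) : ((step q I)^[k] (init q I)).length = I.1.length ∧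
    ∀ p ∈ (step q I)^[k] (init q I), p.1 ≤ top q I ∧ p.2 ≤ top q I := by
  cases k with
  | zero =>
    refine ⟨by simp [init], ?_⟩
    intro p hp
    simp only [Function.iterate_zero, id, init, List.mem_map] at hp
    obtain ⟨_, _, rfl⟩ := hp
    exact ⟨le_rfl, le_rfl⟩
  | succ k =>
    rw [Function.iterate_succ_apply']
    refine ⟨by simp [step], ?_⟩
    intro p hp
    simp only [step, List.mem_map, List.mem_range] at hp
    obtain ⟨u, hu, rfl⟩ := hp
    exact ⟨(upd_le _ _ _ _ _).trans (gt_iterate_le q I k u hu _),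
      (upd_le _ _ _ _ _).trans (gt_iterate_le q I k u hu _)⟩

theorem poly_final : Poly (fun I => (step q I)^[steps q I] (init q I)) := by
  obtain ⟨r, hr⟩ := ((upoly_top q).toPoly).sz_le
  have h := Poly.iterLen (l := fun I => List.replicate (steps q I) ()) (s := init q)
    (F := fun I s => step q I s) (upoly_steps q) (poly_init q) (poly_step q)
    (Polynomial.X * (Polynomial.C 4 * r + Polynomial.C 2) + Polynomial.C 1) ?_
  · refine h.congr fun I => ?_
    rw [List.length_replicate]
  · intro I k _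
    obtain ⟨h1, h2⟩ := iterate_bounds q I k
    have h3 := sz_le_length_mul ((step q I)^[k] (init q I)) (4 * sz (top q I) + 1) (by
      intro p hp
      obtain ⟨e1, e2⟩ := h2 p hp
      have f1 := sz_nat_mono_le e1
      have f2 := sz_nat_mono_le e2
      have : sz p = sz p.1 + sz p.2 + 1 := sz_pair p.1 p.2
      omega)
    have h4 := hr I
    have h5 : I.1.length ≤ sz I := by
      have e1 := length_lt_sz I.1
      have e2 : sz I = sz I.1 + sz I.2 + 1 := sz_pair I.1 I.2
      omega
    refine h3.trans ?_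
    rw [h1]
    simp only [Polynomial.eval_add, Polynomial.eval_mul, Polynomial.eval_C, Polynomial.eval_X]
    have h6 : I.1.length * (4 * sz (top q I) + 1 + 1) ≤ sz I * (4 * r.eval (sz I) + 2) :=
      Nat.mul_le_mul h5 (by omega)
    omega

/-- The test at the end of the algorithm. -/
def test (q : ℕ) (I : Inst) (s : List (ℕ × ℕ)) (u : ℕ) : Bool := !(bad q I s u false) && !(bad q I s u true)

theorem poly_test : Poly (fun p : (Inst × List (ℕ × ℕ)) × ℕ => test q p.1.1 p.1.2 p.2) :=
  Poly.and (Poly.not (poly_badb q false)) (Poly.not (poly_badb q true))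

theorem poly_finalArg : Poly (fun p : Inst × ℕ =>
    (((p.1, (step q p.1)^[steps q p.1] (init q p.1)), p.2) : (Inst × List (ℕ × ℕ)) × ℕ)) :=
  Poly.pair (Poly.pair (Poly.fst Poly.id)
    (Poly.comp (g := fun I : Inst => (step q I)^[steps q I] (init q I)) (f := fun p : Inst × ℕ => p.1)
      (poly_final q) (Poly.fst Poly.id))) (Poly.snd Poly.id)

theorem poly_testFinal : Poly (fun p : Inst × ℕ =>
    test q p.1 ((step q p.1)^[steps q p.1] (init q p.1)) p.2) :=
  Poly.comp (g := fun p : (Inst × List (ℕ × ℕ)) × ℕ => test q p.1.1 p.1.2 p.2)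
    (f := fun p : Inst × ℕ =>
      (((p.1, (step q p.1)^[steps q p.1] (init q p.1)), p.2) : (Inst × List (ℕ × ℕ)) × ℕ))
    (poly_test q) (poly_finalArg q)

theorem poly_alg : Poly (alg q) := by
  have h : Poly (fun I : Inst => (List.range I.1.length).all
      (fun u => test q I ((step q I)^[steps q I] (init q I)) u)) :=
    Poly.all (l := fun I : Inst => List.range I.1.length)
      (p := fun (I : Inst) (u : ℕ) => test q I ((step q I)^[steps q I] (init q I)) u)
      (Poly.range_length (Poly.fst Poly.id)) (poly_testFinal q)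
  exact h

/-- The list of colours of a vertex of a precolouring instance. -/
def optList (q : ℕ) : Option ℕ → List ℕ
  | none => List.range q
  | some k => [k]

/-- The list instance of a precolouring instance. -/
def conv (q : ℕ) (I : List (Option ℕ) × List (ℕ × ℕ)) : Inst := (I.1.map (optList q), I.2)

theorem poly_optList : Poly (optList q) := by
  refine (Poly.optCases (o := fun p : Option ℕ => p)
    (g := fun _ => List.range q) (h := fun _ k => [k]) Poly.id (Poly.const _)
    (Poly.cons (Poly.snd Poly.id) (Poly.const []))).congr fun o => ?_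
  cases o <;> rfl

theorem poly_conv : Poly (conv q) :=
  Poly.pair (Poly.map (l := fun I : List (Option ℕ) × List (ℕ × ℕ) => I.1)
    (F := fun (_ : List (Option ℕ) × List (ℕ × ℕ)) (o : Option ℕ) => optList q o)
    (Poly.fst Poly.id) ((poly_optList q).comp (Poly.snd Poly.id))) (Poly.snd Poly.id)

theorem poly_algConv : Poly (fun I => alg q (conv q I)) := (poly_alg q).comp (poly_conv q)

end Pool.Agent.NPC.Y599OC
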